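import Pool.Agent.Y7.EJ.StmO

/-! EJ-JJ: the integral of the mode `n+2` during a stage. -/

open Set Filter Topology MeasureTheory

set_option autoImplicit false

namespace Pool.Agent.Y689.EJ

open Pool.Agent.Y5 Pool.Agent.Y5.D Pool.Agent.Y7.EJ

variable {lm L C ℓ M hh : ℕ → ℝ} {B : ℕ → ℕ → ℝ} {T : ℝ} {x f : ℕ → ℝ → ℝ}

/-- restriction of the stage -/
lemma gt_restr {n : ℕ} {τ t s : ℝ} (h : Gt lm L hh T x n τ t) (hs : s ∈ Icc τ t) :
    Gt lm L hh T x n τ s :=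
  ⟨hs.1, hs.2.trans_lt h.tT, fun r hr => h.thr r ⟨hr.1, hr.2.trans hs.2⟩,
    fun r hr => h.ang r ⟨hr.1, hr.2.trans hs.2⟩, fun r hr => h.pos r ⟨hr.1, hr.2.trans hs.2⟩,
    fun r hr => h.nx r ⟨hr.1, hr.2.trans hs.2⟩⟩

lemma z0_le (q : SeqP lm L C ℓ M hh B) (n : ℕ) :
    Real.exp (-(1 / 2) * lm (n + 2)) ≤ Real.exp (-(lm (n + 1))) := by
  apply Real.exp_le_exp.2
  have h1 : 100 * lm (n + 1) ≤ lm (n + 2) := slm100 q (n + 1)
  have h2 := slm q (n + 1)
  linarith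

lemma tiny_le (q : SeqP lm L C ℓ M hh B) (n : ℕ) {y : ℝ} (hy0 : 0 ≤ y)
    (hy : √y ≤ eta lm (n + 2)) :
    2 * L (n + 2) * y + ph lm (n + 2) ≤ 3 * Real.exp (-(lm (n + 1))) := by
  have h1 : y ≤ Real.exp (-(28 / 10) * lm (n + 2)) := by
    have e : Real.exp (-(28 / 10) * lm (n + 2)) = eta lm (n + 2) ^ 2 := by
      rw [eta, ← Real.exp_nat_mul]
      congr 1
      push_cast
      ring
    rw [e, ← Real.sq_sqrt hy0]
    gcongr
  have h2 : L (n + 2) ≤ EE lm (n + 2) := EE_L q (by omega)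
  have h3 := EE_exp q (n + 2) 1 (α := -(28 / 10)) (β := -1) (by norm_num)
  rw [pow_one] at h3
  have hL := sLp q (n + 2)
  have h4 : L (n + 2) * y ≤ Real.exp (-1 * lm (n + 2)) := by
    refine le_trans ?_ h3
    have := (EE_pos (lm := lm) (n + 2)).le
    gcongr
  have h5 : Real.exp (-1 * lm (n + 2)) ≤ Real.exp (-(lm (n + 1))) := by
    apply Real.exp_le_exp.2
    have h6 : 100 * lm (n + 1) ≤ lm (n + 2) := slm100 q (n + 1)
    have h7 := slm q (n + 1)
    linarith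
  have h6 : ph lm (n + 2) ≤ Real.exp (-(lm (n + 1))) := by
    rw [ph_eq]
    exact h5
  have h7 : 2 * L (n + 2) * y = 2 * (L (n + 2) * y) := by ring
  rw [h7]
  linarith

lemma five_le (q : SeqP lm L C ℓ M hh B) (n : ℕ) :
    5 * Real.exp (-(lm n)) ≤ Real.exp (-(6 / 100) * lm n) := by
  have h1 := q.lm_big n
  have h2 : 5 ≤ Real.exp (94 / 100 * lm n) := by
    have h3 := Real.add_one_le_exp (94 / 100 * lm n)
    linarith
  have e : Real.exp (-(6 / 100) * lm n) = Real.exp (94 / 100 * lm n) * Real.exp (-(lm n)) := by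
    rw [← Real.exp_add]
    congr 1
    ring
  rw [e]
  have := Real.exp_pos (-(lm n))
  gcongr

lemma nums (q : SeqP lm L C ℓ M hh B) (n : ℕ) : 1 ≤ lm n * hh n ∧
    24 * lm n ^ 2 * Real.exp (-(6 / 100) * lm n) ≤ hh n := by
  have hp := q.hh_pos n
  have h9 := hh9 q n
  have hl := slm q n
  have h1 : hh n ^ 8 ≤ hh n := by
    calc hh n ^ 8 ≤ hh n ^ 1 := pow_le_pow_of_le_one hp.le (by linarith) (by norm_num)
      _ = hh n := pow_one _
  have h2 : 1 ≤ lm n * hh n := by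
    refine (q.hh_lm n).trans ?_
    gcongr
  refine ⟨h2, ?_⟩
  set δ := Real.exp (-(6 / 100) * lm n) with hδ
  have hδp : 0 < δ := Real.exp_pos _
  have h3 := EE_exp q n 3 (α := -(6 / 100)) (β := 0) (by norm_num)
  rw [zero_mul, Real.exp_zero, ← hδ] at h3
  have h4 := EE_lm q n
  have hE := EE_pos (lm := lm) n
  have h5 : 24 * lm n ≤ EE lm n := by linarith
  have h6 : lm n ≤ EE lm n := by linarith
  have h7 : 24 * lm n ^ 3 * δ ≤ 1 := by
    refine le_trans ?_ h3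
    have e : 24 * lm n ^ 3 = (24 * lm n) * lm n * lm n := by ring
    have e' : EE lm n ^ 3 = EE lm n * EE lm n * EE lm n := by ring
    rw [e, e']
    gcongr
  calc 24 * lm n ^ 2 * δ = 24 * lm n ^ 2 * δ * 1 := (mul_one _).symm
    _ ≤ 24 * lm n ^ 2 * δ * (lm n * hh n) := by gcongr
    _ = (24 * lm n ^ 3 * δ) * hh n := by ring
    _ ≤ 1 * hh n := by gcongr
    _ = hh n := one_mul _

/-- the derivative of the mode -/
lemma claim (hE : S_ERR) (hTa : Y7.EJ.S_TAIL) (hY : S_YP) (g : Gd lm L C ℓ M hh B T x f) {n : ℕ}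
    {τ ρ t : ℝ} (hSt : St lm L hh T x n τ ρ) (hGt : Gt lm L hh T x n τ t)
    (hneg : ∀ s ∈ Icc 0 t, -Real.exp (-(1 / 2) * lm (n + 2)) ≤ x (n + 2) s)
    {s : ℝ} (hs : s ∈ Icc τ t) :
    79 / 100 * (L (n + 1) * |x (n + 2) s|) ≤
      vf3 L C ℓ B (fun k => x k s) (n + 2) + f (n + 2) s +
        3 * L (n + 1) * Real.exp (-(6 / 100) * lm (n + 1)) := by
  have q := g.sq
  have hs0 : 0 ≤ s := hSt.τ0.trans hs.1
  have hsT : s ∈ Ico 0 T := ⟨hs0, hs.2.trans_lt hGt.tT⟩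
  obtain ⟨-, -, hta⟩ := hTa lm L C ℓ M hh B T x f g n τ ρ hSt
  obtain ⟨-, hex, -, htl⟩ := hta t hGt
  obtain ⟨-, -, hy8, -⟩ := hY lm L C ℓ M hh B T x f g n τ ρ s hSt (gt_restr hGt hs)
  have hy9 : hh n / 2 ≤ x (n + 1) s := hGt.pos s hs
  have e3 : |vf3 L C ℓ B (fun k => x k s) (n + 2) + f (n + 2) s
        - (L (n + 1) * x (n + 1) s * x (n + 2) s + L (n + 1) * C (n + 1) * x (n + 1) s ^ 2)|
      ≤ 2 * hh (n + 1) ^ 4 * L (n + 1) * |x (n + 2) s| + 2 * L (n + 2) * Y x (n + 3) s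
        + ph lm (n + 2) := (hE lm L C ℓ M hh B T x f g s hsT).2.2 (n + 1)
  have htiny := tiny_le q n (Gd.Y_nonneg (x := x) (n + 3) s) (htl s ⟨hs0, hs.2⟩)
  have hz0 := z0_le q n
  have h5 := five_le q (n + 1)
  have hz := hneg s ⟨hs0, hs.2⟩
  have hY1 := g.abs_le_one hsT (n + 1)
  have hY1' := le_of_abs_le hY1
  have hL1 := sL1 q (n + 1)
  have hLp := sLp q (n + 1)
  have hCp := sCp q (n + 1)
  have hhp := q.hh_pos n
  have hhp1 := q.hh_pos (n + 1)
  have hh91 := hh9 q (n + 1)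
  have hh90 := hh9 q n
  have hlm := slm q (n + 1)
  set W := vf3 L C ℓ B (fun k => x k s) (n + 2) + f (n + 2) s with hW
  set Y1 := x (n + 1) s with hY1d
  set Z := x (n + 2) s with hZ
  set p := Real.exp (-(lm (n + 1))) with hp
  set δ := Real.exp (-(6 / 100) * lm (n + 1)) with hδ
  set z0 := Real.exp (-(1 / 2) * lm (n + 2)) with hz0d
  have hpp : 0 < p := Real.exp_pos _
  have hz0p : 0 < z0 := Real.exp_pos _
  have hδp : 0 < δ := Real.exp_pos _
  have hpL : p ≤ L (n + 1) * p := by nlinarith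
  have h4 : 2 * hh (n + 1) ^ 4 ≤ 1 / 100 := by
    have h6 : hh (n + 1) ^ 4 ≤ hh (n + 1) ^ 1 :=
      pow_le_pow_of_le_one hhp1.le (by linarith) (by norm_num)
    rw [pow_one] at h6
    linarith
  have ha0 : 0 ≤ |Z| := abs_nonneg _
  have h7 : 2 * hh (n + 1) ^ 4 * L (n + 1) * |Z| ≤ 1 / 100 * L (n + 1) * |Z| := by gcongr
  have h8 : 0 ≤ L (n + 1) * C (n + 1) * Y1 ^ 2 := by positivity
  have e4 := neg_le_of_abs_le e3
  have e5 : L (n + 1) * Y1 * Z - 1 / 100 * L (n + 1) * |Z| - 3 * p ≤ W := by linarith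
  rcases le_or_gt (3 / 2) (Aa lm L x n τ s) with hA | hA
  · have h80 := hy8 hA
    have h9 : 8 / 10 * |Z| - 2 * z0 ≤ Y1 * Z := by
      rcases le_or_gt 0 Z with hZ0 | hZ0
      · rw [abs_of_nonneg hZ0]
        nlinarith
      · rw [abs_of_neg hZ0]
        nlinarith
    have h10 : L (n + 1) * (8 / 10 * |Z| - 2 * z0) ≤ L (n + 1) * (Y1 * Z) := by gcongr
    have h11 : L (n + 1) * z0 ≤ L (n + 1) * p := by gcongr
    have h12 : L (n + 1) * (5 * p) ≤ L (n + 1) * δ := by gcongr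
    linarith
  · have h13 : |Z| ≤ δ := by
      refine (g.abs_le_sqrt hsT (le_refl (n + 2))).trans ((hex s hs).trans ?_)
      rw [hδ]
      apply Real.exp_le_exp.2
      have h14 := Real.pi_gt_d4
      have h15 : Aa lm L x n τ s - Real.pi / 2 + 12 * hh n ≤ -(6 / 100) := by
        have h16 : 12 * hh n ≤ 12 * (1 / 10 ^ 9) := by gcongr
        norm_num at h14 h16 ⊢
        linarith
      calc lm (n + 1) * (Aa lm L x n τ s - Real.pi / 2 + 12 * hh n)
          ≤ lm (n + 1) * (-(6 / 100)) := by gcongr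
        _ = -(6 / 100) * lm (n + 1) := by ring
    have h9 : -|Z| ≤ Y1 * Z := by
      have h14 : |Y1 * Z| ≤ |Z| := by
        rw [abs_mul]
        calc |Y1| * |Z| ≤ 1 * |Z| := by gcongr
          _ = |Z| := one_mul _
      exact (neg_le_neg h14).trans (neg_abs_le _)
    have h10 : L (n + 1) * (-|Z|) ≤ L (n + 1) * (Y1 * Z) := by gcongr
    have h11 : L (n + 1) * |Z| ≤ L (n + 1) * δ := by gcongr
    have h12 : L (n + 1) * (5 * p) ≤ L (n + 1) * δ := by gcongr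
    have h16 : 0 ≤ L (n + 1) * δ := by positivity
    linarith

theorem t_JJ (hE : S_ERR) (hT : S_TIME) (hTa : Y7.EJ.S_TAIL) (hY : S_YP) (hN : S_NEG) : S_JJ := by
  intro lm L C ℓ M hh B T x f g n τ ρ t hSt hGt
  have q := g.sq
  have hτt := hGt.τt
  have ht0 : 0 ≤ t := hSt.τ0.trans hτt
  have htT : t ∈ Ico 0 T := ⟨ht0, hGt.tT⟩
  obtain ⟨-, -, hta⟩ := hTa lm L C ℓ M hh B T x f g n τ ρ hSt
  obtain ⟨hsum, -, -, htl⟩ := hta t hGt
  obtain ⟨htm, htl0⟩ := hT lm L C ℓ M hh B T x f g n τ ρ t hSt hGt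
  have hhp := q.hh_pos n
  have hhp1 := q.hh_pos (n + 1)
  have hh90 := hh9 q n
  have hlm := slm q (n + 1)
  have hlm0 := slm q 0
  have hlm2 := slm q (n + 2)
  have hneg : ∀ s ∈ Icc 0 t, -Real.exp (-(1 / 2) * lm (n + 2)) ≤ x (n + 2) s := by
    refine hN lm L C ℓ M hh B T x f g (n + 1) t htT ?_ ?_ htl
    · refine htl0.trans ?_
      have : (0 : ℝ) ≤ (1 / 2) ^ (n + 1) := by positivity
      gcongr
      linarith
    · refine (hsum t ⟨hτt, le_rfl⟩).trans ?_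
      have h1 := hGt.ang t ⟨hτt, le_rfl⟩
      have h2 : Aa lm L x n τ t + 11 * hh n ≤ 2 := by
        norm_num at hh90 ⊢
        linarith
      calc lm (n + 1) * (Aa lm L x n τ t + 11 * hh n) ≤ lm (n + 1) * 2 := by gcongr
        _ = 2 * lm (n + 1) := by ring
  set δ := Real.exp (-(6 / 100) * lm (n + 1)) with hδ
  obtain ⟨K, hK⟩ : ∃ K, K = 3 * L (n + 1) * δ := ⟨_, rfl⟩
  have hsub : Icc τ t ⊆ Ico 0 T := fun s hs => ⟨hSt.τ0.trans hs.1, hs.2.trans_lt hGt.tT⟩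
  have hmono := mono_of
    (f := fun s => x (n + 2) s + K * s - 79 / 100 * Aa lm L x (n + 1) τ s)
    (f' := fun s => vf3 L C ℓ B (fun k => x k s) (n + 2) + f (n + 2) s + K * 1
      - 79 / 100 * (L (n + 2) * |x (n + 2) s| / lm (n + 2))) hτt
    (by
      refine ContinuousOn.sub (ContinuousOn.add ((g.cont (n + 2)).mono hsub) (by fun_prop)) ?_
      refine ContinuousOn.mul continuousOn_const ?_
      unfold Aa
      refine ContinuousOn.div_const (ContinuousOn.sub ?_ continuousOn_const) _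
      exact (Pr_cont (g.cabs (n + 2))).mono hsub)
    (by
      intro s hs
      have hs0 : 0 < s := hSt.τ0.trans_lt hs.1
      have hsT : s < T := hs.2.trans hGt.tT
      have h1 := g.derivAt (n + 2) ⟨hs0, hsT⟩
      have h2 : HasDerivAt (fun s => Aa lm L x (n + 1) τ s)
          (L (n + 2) * |x (n + 2) s| / lm (n + 2)) s := by
        unfold Aa
        exact ((Pr_deriv (g.cabs (n + 2)) ⟨hs0, hsT⟩).sub_const _).div_const _
      exact (h1.add ((hasDerivAt_id s).const_mul K)).sub (h2.const_mul (79 / 100)))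
    (by
      intro s hs
      have h1 := claim hE hTa hY g hSt hGt hneg (s := s) ⟨hs.1.le, hs.2.le⟩
      rw [← hδ] at h1
      have h2 : L (n + 2) * |x (n + 2) s| / lm (n + 2) = L (n + 1) * |x (n + 2) s| := by
        have h3 : lm (n + 2) * L (n + 1) = L (n + 2) := q.lm_succ (n + 1)
        rw [← h3, div_eq_iff hlm2.ne']
        ring
      show 0 ≤ vf3 L C ℓ B (fun k => x k s) (n + 2) + f (n + 2) s + K * 1
        - 79 / 100 * (L (n + 2) * |x (n + 2) s| / lm (n + 2))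
      rw [h2, hK]
      linarith)
  have hA0 : Aa lm L x (n + 1) τ τ = 0 := by
    unfold Aa
    rw [sub_self, zero_div]
  have hm : x (n + 2) τ + K * τ - 79 / 100 * Aa lm L x (n + 1) τ τ ≤
    x (n + 2) t + K * t - 79 / 100 * Aa lm L x (n + 1) τ t := hmono
  rw [hA0] at hm
  have h1 := hneg τ ⟨hSt.τ0, hτt⟩
  have h2 : x (n + 2) t ≤ hh (n + 1) :=
    ((le_abs_self _).trans (g.abs_le_sqrt htT (le_refl (n + 2)))).trans
      (hGt.thr t ⟨hτt, le_rfl⟩)
  have hz0 := z0_le q n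
  have h5 := five_le q (n + 1)
  obtain ⟨h6, h7⟩ := nums q (n + 1)
  rw [← hδ] at h5 h7
  have hδp : 0 < δ := Real.exp_pos _
  have hLp := sLp q n
  have hbig := q.lm_big (n + 1)
  have h8 : K * (t - τ) ≤ 12 * lm (n + 1) ^ 2 * δ := by
    have e : K * (t - τ) = 3 * lm (n + 1) * δ * (L n * (t - τ)) := by
      rw [hK, ← q.lm_succ n]
      ring
    have h9 : 4 / hh n ≤ 4 * lm (n + 1) := by
      rw [div_le_iff₀ hhp]
      have h10 : hh (n + 1) ≤ hh n := by
        have := q.hh_succ n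
        linarith
      have h11 : lm (n + 1) * hh (n + 1) ≤ lm (n + 1) * hh n := by gcongr
      linarith
    rw [e]
    calc 3 * lm (n + 1) * δ * (L n * (t - τ)) ≤ 3 * lm (n + 1) * δ * (4 * lm (n + 1)) :=
          mul_le_mul_of_nonneg_left (htm.trans h9) (by positivity)
      _ = 12 * lm (n + 1) ^ 2 * δ := by ring
  have h12 : δ ≤ 24 * lm (n + 1) ^ 2 * δ := by
    have h13 : 1 ≤ 24 * lm (n + 1) ^ 2 := by nlinarith
    nlinarith
  have h14 : 79 / 100 * Aa lm L x (n + 1) τ t ≤ 2 * hh (n + 1) := by linarith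
  linarith

end Pool.Agent.Y689.EJ
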